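import Mathlib

/-!
# List colourings of the edges of complete graphs with `q`-colourable colour classes

Every assignment of `k`-element lists to the edges of `K_n`, `n ≤ q ^ k`, has a list colouring in
which every colour class is a `q`-colourable graph, and this bound is best possible already for
ordinary colourings. So the list Ramsey number and the Ramsey number of the family of all graphs
which are not `q`-colourable are equal, to `q ^ k + 1`. In particular the list Ramsey number of
`K_r` exceeds `(r - 1) ^ k`.
-/

set_option autoImplicit false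

namespace Pool.Agent.Results.MP_ac7dff_co.ChromaticClasses

/-- The graph formed by the edges of colour `i`; the edge between `x < y` has colour `c x y`. -/
def colourClass {n : ℕ} (c : Fin n → Fin n → ℕ) (i : ℕ) : SimpleGraph (Fin n) where
  Adj x y := (x < y ∧ c x y = i) ∨ (y < x ∧ c y x = i)
  symm := ⟨fun _ _ h => h.symm⟩
  loopless := ⟨fun x h => by
    rcases h with h | h <;> exact lt_irrefl x h.1⟩

/-- One more vertex: a function which differs from each `f j`, `j < m`, on some element of
`S j`. -/
theorem extend {q k : ℕ} (hq : 1 ≤ q) (m : ℕ) (hm : m < q ^ k) (S : ℕ → Finset ℕ)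
    (hS : ∀ j < m, (S j).card = k) (f : ℕ → ℕ → Fin q) :
    ∃ g : ℕ → Fin q, ∀ j < m, ∃ c ∈ S j, f j c ≠ g c := by
  classical
  set P : Finset ℕ := (Finset.range m).biUnion S with hP
  have hsub : ∀ j < m, S j ⊆ P := fun j hj =>
    Finset.subset_biUnion_of_mem S (Finset.mem_range.2 hj)
  set bad : ℕ → Finset (P → Fin q) := fun j =>
    Finset.univ.filter (fun g => ∀ c : P, c.1 ∈ S j → g c = f j c.1) with hbad
  have hcard : ∀ j < m, (bad j).card * q ^ k ≤ q ^ P.card := by
    intro j hj
    have h1 : (bad j).card ≤ q ^ (P \ S j).card := by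
      have h2 : (bad j).card ≤ (Finset.univ : Finset (↥(P \ S j) → Fin q)).card := by
        refine Finset.card_le_card_of_injOn
          (fun g c => g ⟨c.1, (Finset.mem_sdiff.1 c.2).1⟩) (fun _ _ => Finset.mem_coe.2 (Finset.mem_univ _)) ?_
        intro g hg g' hg' hgg'
        have hg1 := (Finset.mem_filter.1 (Finset.mem_coe.1 hg)).2
        have hg2 := (Finset.mem_filter.1 (Finset.mem_coe.1 hg')).2
        funext c
        by_cases hc : c.1 ∈ S j
        · rw [hg1 c hc, hg2 c hc]
        · exact congrFun hgg' ⟨c.1, Finset.mem_sdiff.2 ⟨c.2, hc⟩⟩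
      simpa using h2
    calc (bad j).card * q ^ k ≤ q ^ (P \ S j).card * q ^ (S j).card := by
          rw [hS j hj]
          exact Nat.mul_le_mul_right _ h1
      _ = q ^ P.card := by
          rw [← pow_add, Finset.card_sdiff_add_card_eq_card (hsub j hj)]
  have hex : ∃ g : P → Fin q, g ∉ (Finset.range m).biUnion bad := by
    by_contra hcon
    push Not at hcon
    have h1 : (Finset.univ : Finset (P → Fin q)) ⊆ (Finset.range m).biUnion bad :=
      fun g _ => hcon g
    have h2 : q ^ P.card ≤ ∑ j ∈ Finset.range m, (bad j).card := by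
      have h3 := (Finset.card_le_card h1).trans Finset.card_biUnion_le
      simpa using h3
    have h4 : q ^ P.card * q ^ k ≤ m * q ^ P.card := by
      calc q ^ P.card * q ^ k ≤ (∑ j ∈ Finset.range m, (bad j).card) * q ^ k :=
            Nat.mul_le_mul_right _ h2
        _ = ∑ j ∈ Finset.range m, (bad j).card * q ^ k := Finset.sum_mul _ _ _
        _ ≤ ∑ _j ∈ Finset.range m, q ^ P.card :=
            Finset.sum_le_sum fun j hj => hcard j (Finset.mem_range.1 hj)
        _ = m * q ^ P.card := by simp
    have h5 : 0 < q ^ P.card := pow_pos (by omega) _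
    have h6 : m * q ^ P.card < q ^ P.card * q ^ k := by
      rw [mul_comm]
      exact Nat.mul_lt_mul_of_pos_left hm h5
    omega
  obtain ⟨g, hg⟩ := hex
  refine ⟨fun c => if h : c ∈ P then g ⟨c, h⟩ else ⟨0, by omega⟩, fun j hj => ?_⟩
  by_contra hcon
  push Not at hcon
  apply hg
  rw [Finset.mem_biUnion]
  refine ⟨j, Finset.mem_range.2 hj, Finset.mem_filter.2 ⟨Finset.mem_univ _, fun c hc => ?_⟩⟩
  have h := hcon c.1 hc
  rw [dif_pos c.2] at h
  exact h.symm

/-- The maps: for every pair of vertices some colour of the list separates them. -/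
theorem exists_maps {q k : ℕ} (hq : 1 ≤ q) (n : ℕ) (hn : n ≤ q ^ k) (L : ℕ → ℕ → Finset ℕ)
    (hL : ∀ x y, x < y → y < n → (L x y).card = k) :
    ∃ f : ℕ → ℕ → Fin q, ∀ x y, x < y → y < n → ∃ c ∈ L x y, f x c ≠ f y c := by
  classical
  have key : ∀ m ≤ n, ∃ f : ℕ → ℕ → Fin q, ∀ x y, x < y → y < m → ∃ c ∈ L x y, f x c ≠ f y c := by
    intro m
    induction m with
    | zero =>
      intro _
      exact ⟨fun _ _ => ⟨0, by omega⟩, fun x y _ h => absurd h (Nat.not_lt_zero _)⟩
    | succ m ih =>
      intro hm
      obtain ⟨f, hf⟩ := ih (by omega)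
      obtain ⟨g, hg⟩ := extend hq m (by omega) (fun j => L j m)
        (fun j hj => hL j m hj (by omega)) f
      refine ⟨fun x => if x = m then g else f x, fun x y hxy hy => ?_⟩
      have hx : x ≠ m := by omega
      by_cases hym : y = m
      · subst hym
        obtain ⟨c, hc, h⟩ := hg x hxy
        exact ⟨c, hc, by simpa [hx] using h⟩
      · obtain ⟨c, hc, h⟩ := hf x y hxy (by omega)
        exact ⟨c, hc, by simpa [hx, hym] using h⟩
  exact key n le_rfl

/-- Let `q ≥ 1`. If `n ≤ q ^ k`, then for every assignment of lists of `k` colours to the edges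
of `K_n` there is a list colouring all of whose colour classes are `q`-colourable (so there is no
monochromatic `K_{q+1}`). If `n > q ^ k`, then every colouring of the edges of `K_n` with `k`
colours has a colour class which is not `q`-colourable. -/
theorem result (q k n : ℕ) (hq : 1 ≤ q) :
    (n ≤ q ^ k → ∀ L : Fin n → Fin n → Finset ℕ,
      (∀ x y : Fin n, x < y → (L x y).card = k) →
      ∃ c : Fin n → Fin n → ℕ, (∀ x y : Fin n, x < y → c x y ∈ L x y) ∧
        ∀ i : ℕ, (colourClass c i).Colorable q ∧ (colourClass c i).CliqueFree (q + 1)) ∧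
    (q ^ k < n → ∀ c : Fin n → Fin n → ℕ, (∀ x y : Fin n, x < y → c x y < k) →
      ∃ i < k, ¬ (colourClass c i).Colorable q) := by
  classical
  constructor
  · intro hn L hL
    obtain ⟨f, hf⟩ := exists_maps hq n hn
      (fun x y => if h : x < n ∧ y < n then L ⟨x, h.1⟩ ⟨y, h.2⟩ else ∅) (by
        intro x y hxy hy
        rw [dif_pos ⟨by omega, hy⟩]
        exact hL _ _ hxy)
    have hf' : ∀ x y : Fin n, x < y → ∃ a ∈ L x y, f x a ≠ f y a := by
      intro x y hxy
      obtain ⟨a, ha, h⟩ := hf x y hxy y.2
      rw [dif_pos ⟨x.2, y.2⟩] at ha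
      exact ⟨a, ha, h⟩
    refine ⟨fun x y => if h : x < y then (hf' x y h).choose else 0, ?_, ?_⟩
    · intro x y hxy
      have h := (hf' x y hxy).choose_spec.1
      simp only [dif_pos hxy]
      exact h
    · intro i
      have hcol : (colourClass (fun x y => if h : x < y then (hf' x y h).choose else 0)
          i).Colorable q := by
        refine ⟨SimpleGraph.Coloring.mk (fun x : Fin n => f x i) ?_⟩
        intro x y hxy
        rcases hxy with ⟨h, hc⟩ | ⟨h, hc⟩
        · simp only [dif_pos h] at hc
          have := (hf' x y h).choose_spec.2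
          rw [hc] at this
          exact this
        · simp only [dif_pos h] at hc
          have := (hf' y x h).choose_spec.2
          rw [hc] at this
          exact this.symm
      exact ⟨hcol, hcol.cliqueFree (Nat.lt_succ_self q)⟩
  · intro hn c hc
    by_contra hcon
    push Not at hcon
    have hcol : ∀ i : Fin k, ∃ g : Fin n → Fin q, ∀ x y : Fin n, x < y → c x y = i.1 →
        g x ≠ g y := by
      intro i
      obtain ⟨C⟩ := hcon i.1 i.2
      exact ⟨C, fun x y hxy h => C.valid (Or.inl ⟨hxy, h⟩)⟩
    choose g hg using hcol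
    have hinj : Function.Injective (fun (x : Fin n) (i : Fin k) => g i x) := by
      intro x y hxy
      by_contra hne
      rcases lt_or_gt_of_ne hne with h | h
      · exact hg ⟨c x y, hc x y h⟩ x y h rfl (congrFun hxy _)
      · exact hg ⟨c y x, hc y x h⟩ y x h rfl (congrFun hxy _).symm
    have h1 := Fintype.card_le_of_injective _ hinj
    simp only [Fintype.card_fin, Fintype.card_fun] at h1
    omega

end Pool.Agent.Results.MP_ac7dff_co.ChromaticClasses
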