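import Pool.Agent.Lib.MP_ac7dff_co.Big
import Pool.Agent.Lib.MP_ac7dff_co.Small
import Pool.Agent.Lib.MP_ac7dff_co.Upper

/-!
# The list Ramsey numbers of cliques are exponential in `r * k`

For all `r ≥ 3` and `k ≥ 1` the list Ramsey number of `K_r` is larger than `2 ^ ((k - 1) * r / 48)`.
With the upper bound of Erdős and Szekeres for the ordinary Ramsey number it follows that
`R(K_r, k) ≤ R_l(K_r, k) ^ (96 * a)` if `2 ≤ k ≤ 2 ^ a`.

Every colour `j` gets a random map `ψ_j` from the vertices to `Fin M`, `M = 2 ^ s`, `r ≈ 4 * s`, and a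
random template `h_j` on `Fin M`, in which every `r` points span less than half of the possible
edges. A colour of the list of the edge `xy` is good if `ψ_j x ≠ ψ_j y` is an edge of the template;
the edge gets a good colour of its list if there is one, and otherwise a colour of its list with
`ψ_j x ≠ ψ_j y`.
-/

set_option autoImplicit false

namespace Pool.Agent.Results.MP_ac7dff_co.ExponentialInRK

/-- The colouring `c` of the edges of `K_n` has a monochromatic `K_r`; the colour of the edge
between `x < y` is `c x y`. -/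
def Mono {n : ℕ} (r : ℕ) (c : Fin n → Fin n → ℕ) : Prop :=
  ∃ S : Finset (Fin n), S.card = r ∧ ∃ i : ℕ, ∀ x ∈ S, ∀ y ∈ S, x < y → c x y = i

/-- Some assignment of lists of `k` colours to the edges of `K_n` forces a monochromatic `K_r` in
every list colouring. -/
def ListForces (r k n : ℕ) : Prop :=
  ∃ L : Fin n → Fin n → Finset ℕ, (∀ x y : Fin n, x < y → (L x y).card = k) ∧
    ∀ c : Fin n → Fin n → ℕ, (∀ x y : Fin n, x < y → c x y ∈ L x y) → Mono r c

/-- Every colouring of the edges of `K_n` with the `k` colours `0, ..., k - 1` has a monochromatic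
`K_r`. -/
def Forces (r k n : ℕ) : Prop :=
  ∀ c : Fin n → Fin n → ℕ, (∀ x y : Fin n, x < y → c x y < k) → Mono r c

/-- The lower bound. -/
theorem lower {r k n : ℕ} (hr : 3 ≤ r) (hk : 1 ≤ k) (hn : n ^ 48 ≤ 2 ^ ((k - 1) * r)) :
    ¬ ListForces r k n := by
  rintro ⟨L, hL, hc⟩
  rcases Nat.lt_or_ge r 384 with hr' | hr'
  · have h1 : n ≤ (r - 1) ^ k := by
      rw [← Nat.pow_le_pow_iff_left (n := 48) (by norm_num)]
      calc n ^ 48 ≤ 2 ^ ((k - 1) * r) := hn
        _ ≤ 2 ^ (r * k) := Nat.pow_le_pow_right (by norm_num) (by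
            rw [mul_comm r k]
            exact Nat.mul_le_mul_right _ (Nat.sub_le _ _))
        _ = (2 ^ r) ^ k := pow_mul _ _ _
        _ ≤ ((r - 1) ^ 48) ^ k := Nat.pow_le_pow_left (Lib.MP_ac7dff_co.small_num hr hr') _
        _ = ((r - 1) ^ k) ^ 48 := by rw [← pow_mul, ← pow_mul, mul_comm]
    obtain ⟨c, hc1, hc2⟩ := Lib.MP_ac7dff_co.small (q := r - 1) (r := r) (by omega) (by omega) h1
      L hL
    obtain ⟨S, hS, i, hi⟩ := hc c hc1
    exact hc2 S hS i hi
  · rcases Nat.lt_or_ge k 2 with hk' | hk'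
    · have hk1 : k = 1 := by omega
      subst hk1
      have h1 : n ≤ (r - 1) ^ 1 := by
        have h2 : n ^ 48 ≤ 1 := by simpa using hn
        have h3 : n ≤ 1 := by
          by_contra hcon
          have h4 : 2 ^ 48 ≤ n ^ 48 := Nat.pow_le_pow_left (by omega) _
          omega
        rw [pow_one]
        omega
      obtain ⟨c, hc1, hc2⟩ := Lib.MP_ac7dff_co.small (q := r - 1) (r := r) (by omega) (by omega) h1
        L hL
      obtain ⟨S, hS, i, hi⟩ := hc c hc1
      exact hc2 S hS i hi
    · have h1 : n ^ 48 ≤ 2 ^ ((k - 1) * (4 * (r / 4) + 3)) :=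
        hn.trans (Nat.pow_le_pow_right (by norm_num) (Nat.mul_le_mul_left _ (by omega)))
      obtain ⟨c, hc1, hc2⟩ := Lib.MP_ac7dff_co.big (s := r / 4) (by omega) hk' h1 L hL
      obtain ⟨S, hS, i, hi⟩ := hc c hc1
      obtain ⟨K, hK, hKc⟩ := Finset.exists_subset_card_eq (show 4 * (r / 4) ≤ S.card by omega)
      exact hc2 K hKc i fun x hx y hy hxy => hi x (hK hx) y (hK hy) hxy

/-- Let `r ≥ 3` and `k ≥ 1`. If `n ^ 48 ≤ 2 ^ ((k - 1) * r)`, then for every assignment of lists of
`k` colours to the edges of `K_n` there is a list colouring without monochromatic `K_r`. If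
`2 ≤ k ≤ 2 ^ a` and some assignment of lists of `k` colours to the edges of `K_n` forces a
monochromatic `K_r` in every list colouring, then every colouring of the edges of the complete
graph on `n ^ (96 * a)` vertices with `k` colours has a monochromatic `K_r`. -/
theorem result (r k n : ℕ) (hr : 3 ≤ r) (hk : 1 ≤ k) :
    (n ^ 48 ≤ 2 ^ ((k - 1) * r) → ¬ ListForces r k n) ∧
    (∀ a : ℕ, 2 ≤ k → k ≤ 2 ^ a → ListForces r k n → Forces r k (n ^ (96 * a))) := by
  refine ⟨lower hr hk, fun a hk2 hka hL c hc => ?_⟩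
  have h1 : 2 ^ ((k - 1) * r) ≤ n ^ 48 := by
    by_contra hcon
    exact lower hr hk (not_le.1 hcon).le hL
  refine Lib.MP_ac7dff_co.upper hk2 (by omega) ?_ c hc
  calc k ^ (k * (r - 1)) ≤ (2 ^ a) ^ (k * (r - 1)) := Nat.pow_le_pow_left hka _
    _ ≤ (2 ^ a) ^ (2 * ((k - 1) * r)) := by
        refine Nat.pow_le_pow_right (by positivity) ?_
        have h2 : k ≤ 2 * (k - 1) := by omega
        calc k * (r - 1) ≤ (2 * (k - 1)) * r := Nat.mul_le_mul h2 (Nat.sub_le _ _)
          _ = 2 * ((k - 1) * r) := by ring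
    _ = (2 ^ ((k - 1) * r)) ^ (2 * a) := by
        rw [← pow_mul, ← pow_mul]
        congr 1
        ring
    _ ≤ (n ^ 48) ^ (2 * a) := Nat.pow_le_pow_left h1 _
    _ = n ^ (96 * a) := by
        rw [← pow_mul]
        congr 1
        ring

end Pool.Agent.Results.MP_ac7dff_co.ExponentialInRK
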